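import Pool.Agent.W42.RG.Defs

set_option autoImplicit false

namespace Pool.Agent.W52.LX

open Finset Filter Topology MeasureTheory Pool.Agent.W42.RN Pool.Agent.W42.RL Pool.Agent.W42.RG

theorem real_ce {X : Type} {m : MeasurableSpace X} [mX : MeasurableSpace X] (μ : Measure X)
    [IsProbabilityMeasure μ] (hm : m ≤ mX) (u : X → ℝ) (hu : Measurable u) (C : ℝ) (hC0 : 0 ≤ C)
    (hC : ∀ p, |u p| ≤ C) :
    ∃ v : X → ℝ, Measurable[m] v ∧ (∀ p, |v p| ≤ C) ∧
      ∀ B : Set X, MeasurableSet[m] B → ∫ p in B, (u p - v p) ∂μ = 0 := by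
  have hint : Integrable u μ := by
    refine Integrable.of_bound hu.aestronglyMeasurable C ?_
    filter_upwards with p
    rw [Real.norm_eq_abs]
    exact hC p
  have hbd : ∀ᵐ x ∂μ, |(μ[u | m]) x| ≤ C := by
    apply ae_bdd_abs_condExp_of_ae_bdd_abs
    filter_upwards with p
    exact hC p
  have hsm : StronglyMeasurable[m] (μ[u | m]) := stronglyMeasurable_condExp
  have hmeas : Measurable[m] (fun p => max (-C) (min C ((μ[u | m]) p))) := by
    exact Measurable.max measurable_const (Measurable.min measurable_const hsm.measurable)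
  have hae : (fun p => max (-C) (min C ((μ[u | m]) p))) =ᵐ[μ] μ[u | m] := by
    filter_upwards [hbd] with p hp
    have h1 := abs_le.mp hp
    have h2 : (μ[u | m]) p ≤ C := h1.2
    have h3 : -C ≤ (μ[u | m]) p := h1.1
    rw [min_eq_right h2, max_eq_right h3]
  have hvint : Integrable (fun p => max (-C) (min C ((μ[u | m]) p))) μ :=
    (integrable_condExp (μ := μ) (m := m) (f := u)).congr hae.symm
  refine ⟨fun p => max (-C) (min C ((μ[u | m]) p)), hmeas, ?_, ?_⟩
  · intro p
    rw [abs_le]
    refine ⟨le_max_left _ _, max_le (by linarith) (min_le_left _ _)⟩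
  · intro B hB
    rw [integral_sub hint.integrableOn hvint.integrableOn]
    have h1 : ∫ p in B, max (-C) (min C ((μ[u | m]) p)) ∂μ = ∫ p in B, (μ[u | m]) p ∂μ := by
      apply setIntegral_congr_ae (hm B hB)
      filter_upwards [hae] with p hp _
      exact hp
    rw [h1, setIntegral_condExp hm hint hB]
    ring

theorem t_CE : S_CE := by
  intro X m mX μ _ hm f hf
  obtain ⟨hfm, C, hC⟩ := hf
  have hre : ∀ p, |(f p).re| ≤ max C 0 := fun p =>
    ((Complex.abs_re_le_norm (f p)).trans (hC p)).trans (le_max_left _ _)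
  have him : ∀ p, |(f p).im| ≤ max C 0 := fun p =>
    ((Complex.abs_im_le_norm (f p)).trans (hC p)).trans (le_max_left _ _)
  have hmre : Measurable (fun p => (f p).re) := Complex.measurable_re.comp hfm
  have hmim : Measurable (fun p => (f p).im) := Complex.measurable_im.comp hfm
  obtain ⟨v1, hv1, hb1, hi1⟩ := real_ce μ hm _ hmre (max C 0) (le_max_right _ _) hre
  obtain ⟨v2, hv2, hb2, hi2⟩ := real_ce μ hm _ hmim (max C 0) (le_max_right _ _) him
  refine ⟨fun p => (v1 p : ℂ) + (v2 p : ℂ) * Complex.I, ⟨?_, ?_⟩, ?_⟩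
  · have h1 : Measurable[m] (fun p => (v1 p : ℂ)) := Complex.measurable_ofReal.comp hv1
    have h2 : Measurable[m] (fun p => (v2 p : ℂ)) := Complex.measurable_ofReal.comp hv2
    exact h1.add (h2.mul_const Complex.I)
  · refine ⟨max C 0 + max C 0, fun p => ?_⟩
    refine (norm_add_le _ _).trans ?_
    rw [norm_mul, Complex.norm_I, mul_one, Complex.norm_real, Complex.norm_real,
      Real.norm_eq_abs, Real.norm_eq_abs]
    exact add_le_add (hb1 p) (hb2 p)
  · intro B hB
    have hb : ∀ w : X → ℝ, Measurable w → (∃ D : ℝ, ∀ p, |w p| ≤ D) → Integrable w (μ.restrict B) := by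
      intro w hw ⟨D, hD⟩
      refine Integrable.of_bound hw.aestronglyMeasurable D ?_
      filter_upwards with p
      rw [Real.norm_eq_abs]
      exact hD p
    have hv1' : Measurable v1 := hv1.mono hm le_rfl
    have hv2' : Measurable v2 := hv2.mono hm le_rfl
    have i1 : Integrable (fun p => (f p).re - v1 p) (μ.restrict B) := by
      apply hb _ (hmre.sub hv1')
      refine ⟨max C 0 + max C 0, fun p => ?_⟩
      exact (abs_sub _ _).trans (add_le_add (hre p) (hb1 p))
    have i2 : Integrable (fun p => (f p).im - v2 p) (μ.restrict B) := by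
      apply hb _ (hmim.sub hv2')
      refine ⟨max C 0 + max C 0, fun p => ?_⟩
      exact (abs_sub _ _).trans (add_le_add (him p) (hb2 p))
    have heq : ∀ p, f p - ((v1 p : ℂ) + (v2 p : ℂ) * Complex.I) =
        (((f p).re - v1 p : ℝ) : ℂ) + (((f p).im - v2 p : ℝ) : ℂ) * Complex.I := by
      intro p
      apply Complex.ext
      · simp
      · simp
    have h1 : ∫ p in B, (f p - ((v1 p : ℂ) + (v2 p : ℂ) * Complex.I)) ∂μ =
        ∫ p in B, ((((f p).re - v1 p : ℝ) : ℂ) + (((f p).im - v2 p : ℝ) : ℂ) * Complex.I) ∂μ := by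
      congr 1
      funext p
      exact heq p
    rw [h1, integral_add i1.ofReal (i2.ofReal.mul_const _), integral_mul_const, integral_complex_ofReal,
      integral_complex_ofReal, hi1 B hB, hi2 B hB]
    simp

end Pool.Agent.W52.LX
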