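import Pool.Agent.W42.RG.Defs

set_option autoImplicit false

namespace Pool.Agent.W52.LX

open Finset Filter Topology MeasureTheory Pool.Agent.W42.RN Pool.Agent.W42.RL Pool.Agent.W42.RG

theorem t_POW : S_POW := by
  intro X _ μ _ T hT q hq k h A hA ε hε
  have hmp : ∀ n : ℕ, MeasurePreserving (T^[n]) μ μ := fun n => hT.iterate n
  choose N hN using fun r : Fin (k + 1) → Fin q =>
    h (fun i => if hi : i < k + 1 then (T^[(r ⟨i, hi⟩ : ℕ)]) ⁻¹' A i else A i) (by
      intro i
      refine ⟨?_, trivial⟩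
      split_ifs with hi
      · exact (hmp _).measurable (hA i).1
      · exact (hA i).1) ε hε
  refine ⟨q * (univ.sup N + 1), fun m hm => ?_⟩
  set s : ℕ → ℕ := fun i => ∑ j ∈ range i, m j with hs
  have hq0 : 0 < q := hq
  set t : ℕ → ℕ := fun i => s i / q with ht
  set r : Fin (k + 1) → Fin q := fun i => ⟨s i % q, Nat.mod_lt _ hq0⟩ with hr
  have hsm : Monotone s := by
    apply monotone_nat_of_le_succ
    intro i
    rw [hs]
    dsimp only
    rw [Finset.sum_range_succ]
    omega
  have htm : Monotone t := fun i j hij => Nat.div_le_div_right (hsm hij)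
  have ht0 : t 0 = 0 := by
    rw [ht, hs]
    dsimp only
    rw [Finset.sum_range_zero, Nat.zero_div]
  have hsum : ∀ i, ∑ j ∈ range i, (t (j + 1) - t j) = t i := by
    intro i
    rw [Finset.sum_range_tsub htm, ht0, Nat.sub_zero]
  have hgap : ∀ j < k, N r ≤ t (j + 1) - t j := by
    intro j hj
    have h1 : s (j + 1) = s j + m j := by
      rw [hs]
      dsimp only
      rw [Finset.sum_range_succ]
    have h2 := hm j hj
    have h3 : t j + (univ.sup N + 1) ≤ t (j + 1) := by
      rw [ht]
      dsimp only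
      rw [Nat.le_div_iff_mul_le hq0, h1]
      have h4 : s j / q * q ≤ s j := Nat.div_mul_le_self _ _
      calc (s j / q + (univ.sup N + 1)) * q = s j / q * q + q * (univ.sup N + 1) := by ring
        _ ≤ s j + m j := by omega
    have h5 : N r ≤ univ.sup N := Finset.le_sup (Finset.mem_univ r)
    omega
  have key := hN r (fun j => t (j + 1) - t j) hgap
  have e1 : (⋂ i ∈ Finset.range (k + 1), (T^[q])^[∑ j ∈ Finset.range i, (t (j + 1) - t j)] ⁻¹'
      (if hi : i < k + 1 then (T^[((r ⟨i, hi⟩ : Fin q) : ℕ)]) ⁻¹' A i else A i)) =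
      ⋂ i ∈ Finset.range (k + 1), T^[∑ j ∈ Finset.range i, m j] ⁻¹' A i := by
    apply Set.iInter_congr
    intro i
    apply Set.iInter_congr
    intro hi
    rw [Finset.mem_range] at hi
    rw [dif_pos hi, hsum i, ← Function.iterate_mul, ← Set.preimage_comp, ← Function.iterate_add]
    have h6 : ((r ⟨i, hi⟩ : Fin q) : ℕ) + q * t i = ∑ j ∈ Finset.range i, m j := by
      show s i % q + q * (s i / q) = s i
      exact Nat.mod_add_div _ _
    rw [h6]
  have e2 : (∏ i ∈ Finset.range (k + 1), μ.real
      (if hi : i < k + 1 then (T^[((r ⟨i, hi⟩ : Fin q) : ℕ)]) ⁻¹' A i else A i)) =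
      ∏ i ∈ Finset.range (k + 1), μ.real (A i) := by
    apply Finset.prod_congr rfl
    intro i hi
    rw [Finset.mem_range] at hi
    rw [dif_pos hi]
    unfold Measure.real
    rw [(hmp _).measure_preimage (hA i).1.nullMeasurableSet]
  rw [e1, e2] at key
  exact key

end Pool.Agent.W52.LX
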